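import Mathlib
import Pool.Agent.Helper131.Tern

set_option autoImplicit false

/-!
# The fractional walk-nonrepetitive chromatic number of paths

It is `3` for the path with five vertices and `4` for every path with at least six vertices.
-/

namespace Pool.Agent.Results.MP_c566a2_co.PathValue

/-- `c` is a `p`-tuple walk-nonrepetitive `q`-colouring of `G`: every vertex gets a set of `p` of
the `q` colours, and for every walk `w 0, …, w (2l-1)` (`l ≥ 1`) of `G` which is not boring and
every choice of colours `a i ∈ c (w i)` the sequence of the `a i` is not a repetition. -/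
def IsWalkNonrepetitive {V : Type} (G : SimpleGraph V) (p q : ℕ) (c : V → Finset (Fin q)) :
    Prop :=
  (∀ v, (c v).card = p) ∧
    ∀ (l : ℕ) (w : ℕ → V), 1 ≤ l → (∀ i, i + 1 < 2 * l → G.Adj (w i) (w (i + 1))) →
      (¬ ∀ i < l, w i = w (l + i)) →
        ∀ a : ℕ → Fin q, (∀ i < 2 * l, a i ∈ c (w i)) → ¬ ∀ i < l, a i = a (l + i)

/-- The fractional walk-nonrepetitive chromatic number: the infimum of the ratios `q / p` over
all `1 ≤ p < q` for which there is a `p`-tuple walk-nonrepetitive `q`-colouring. -/
noncomputable def piFW {V : Type} (G : SimpleGraph V) : ℝ :=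
  sInf {x : ℝ | ∃ p q : ℕ, 1 ≤ p ∧ p < q ∧
    (∃ c : V → Finset (Fin q), IsWalkNonrepetitive G p q c) ∧ x = (q : ℝ) / (p : ℝ)}

/-! ### Walks on a path -/

/-- The main combinatorial lemma: on a path, a colouring in which vertices at distance one or two
have different colours and which has no square is walk-nonrepetitive. -/
theorem boring_of_repetitive {C : Type} (f : ℤ → C) (n : ℤ)
    (h1 : ∀ x, 0 ≤ x → x + 1 < n → f x ≠ f (x + 1))
    (h2 : ∀ x, 0 ≤ x → x + 2 < n → f x ≠ f (x + 2))
    (h3 : ∀ x : ℤ, ∀ p : ℕ, 0 ≤ x → 0 < p → x + 2 * p ≤ n →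
      ∃ k : ℕ, k < p ∧ f (x + k) ≠ f (x + p + k)) :
    ∀ (l : ℕ) (w : ℕ → ℤ), 1 ≤ l → (∀ i < 2 * l, 0 ≤ w i ∧ w i < n) →
      (∀ i, i + 1 < 2 * l → w (i + 1) = w i + 1 ∨ w (i + 1) = w i - 1) →
      (∀ i < l, f (w i) = f (w (l + i))) → ∀ i < l, w i = w (l + i) := by
  -- same colour and distance at most two forces equality
  have heq : ∀ x y : ℤ, 0 ≤ x → x < n → 0 ≤ y → y < n → f x = f y →
      (y - x ≤ 2 ∧ x - y ≤ 2) → x = y := by
    intro x y hx0 hx1 hy0 hy1 hf hd
    by_contra hne
    rcases lt_or_gt_of_ne hne with h | h
    · have hcase : y = x + 1 ∨ y = x + 2 := by omega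
      rcases hcase with rfl | rfl
      · exact h1 x hx0 hy1 hf
      · exact h2 x hx0 hy1 hf
    · have hcase : x = y + 1 ∨ x = y + 2 := by omega
      rcases hcase with rfl | rfl
      · exact h1 y hy0 hx1 hf.symm
      · exact h2 y hy0 hx1 hf.symm
  intro l
  induction l using Nat.strong_induction_on with
  | _ l ih =>
    intro w hl hr hs hf
    by_cases hturn : ∃ i, 1 ≤ i ∧ i + 2 ≤ l ∧
        (w (i - 1) = w (i + 1) ∨ w (l + i - 1) = w (l + i + 1))
    · obtain ⟨i, hi1, hi2, hor⟩ := hturn
      have e1 := hs (i - 1) (by omega)
      have e2 := hs i (by omega)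
      have e3 := hs (l + i - 1) (by omega)
      have e4 := hs (l + i) (by omega)
      have i1 : i - 1 + 1 = i := by omega
      have i2 : l + i - 1 + 1 = l + i := by omega
      rw [i1] at e1
      rw [i2] at e3
      have c1 := hf (i - 1) (by omega)
      have c2 := hf (i + 1) (by omega)
      have i3 : l + (i - 1) = l + i - 1 := by omega
      have i4 : l + (i + 1) = l + i + 1 := by omega
      rw [i3] at c1
      rw [i4] at c2
      have r1 := hr (i - 1) (by omega)
      have r2 := hr (i + 1) (by omega)
      have r3 := hr (l + i - 1) (by omega)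
      have r4 := hr (l + i + 1) (by omega)
      have t1 : w (i - 1) = w (i + 1) := by
        rcases hor with h | h
        · exact h
        · apply heq _ _ r1.1 r1.2 r2.1 r2.2 (by rw [c1, c2, h])
          omega
      have t2 : w (l + i - 1) = w (l + i + 1) := by
        apply heq _ _ r3.1 r3.2 r4.1 r4.2 (by rw [← c1, ← c2, t1])
        omega
      -- remove the two turns
      set w' : ℕ → ℤ := fun j => if j < i then w j else if j < l - 2 + i then w (j + 2)
        else w (j + 4) with hw'
      have hb := ih (l - 2) (by omega) w' (by omega) ?_ ?_ ?_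
      · -- conclude
        have hA : ∀ j < l, j ≠ i → j ≠ i + 1 → w j = w (l + j) := by
          intro j hj hji hji1
          rcases lt_or_ge j i with hlt | hge
          · have := hb j (by omega)
            simp only [hw'] at this
            rw [if_pos hlt, if_neg (by omega), if_pos (by omega)] at this
            rw [this]; congr 1; omega
          · have := hb (j - 2) (by omega)
            simp only [hw'] at this
            rw [if_neg (by omega), if_pos (by omega), if_neg (by omega), if_neg (by omega)] at this
            have q1 : j - 2 + 2 = j := by omega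
            have q2 : l - 2 + (j - 2) + 4 = l + j := by omega
            rw [q1, q2] at this
            exact this
        have hB : w (i - 1) = w (l + i - 1) := by
          have := hA (i - 1) (by omega) (by omega) (by omega)
          rwa [i3] at this
        intro j hj
        by_cases hji : j = i
        · subst hji
          have r5 := hr j (by omega)
          have r6 := hr (l + j) (by omega)
          apply heq _ _ r5.1 r5.2 r6.1 r6.2 (hf j hj)
          omega
        · by_cases hji1 : j = i + 1
          · subst hji1
            rw [i4, ← t2, ← hB, t1]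
          · exact hA j hj hji hji1
      · intro j hj
        simp only [hw']
        split_ifs
        · exact hr j (by omega)
        · exact hr (j + 2) (by omega)
        · exact hr (j + 4) (by omega)
      · intro j hj
        simp only [hw']
        split_ifs <;> first | omega | skip
        · exact hs j (by omega)
        · -- j = i - 1
          have hji : j = i - 1 := by omega
          subst hji
          have := hs (i + 1) (by omega)
          have q1 : i - 1 + 1 + 2 = i + 1 + 1 := by omega
          rw [q1, t1]
          exact this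
        · exact hs (j + 2) (by omega)
        · have hji : j = l - 2 + i - 1 := by omega
          subst hji
          have := hs (l + i + 1) (by omega)
          have q1 : l - 2 + i - 1 + 1 + 4 = l + i + 1 + 1 := by omega
          have q2 : l - 2 + i - 1 + 2 = l + i - 1 := by omega
          rw [q1, q2, t2]
          exact this
        · exact hs (j + 4) (by omega)
      · intro j hj
        simp only [hw']
        rcases lt_or_ge j i with hlt | hge
        · rw [if_pos hlt, if_neg (by omega), if_pos (by omega)]
          have := hf j (by omega)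
          rw [this]; congr 2; omega
        · rw [if_neg (by omega), if_pos (by omega), if_neg (by omega), if_neg (by omega)]
          have := hf (j + 2) (by omega)
          rw [this]; congr 2; omega
    · -- no turn inside the halves
      push Not at hturn
      -- straight halves
      have hstr : ∀ o : ℕ, (o = 0 ∨ o = l) → ∃ ε : ℤ, (ε = 1 ∨ ε = -1) ∧
          ∀ j < l, w (o + j) = w o + ε * j := by
        intro o ho
        by_cases hl2 : l = 1
        · refine ⟨1, Or.inl rfl, fun j hj => ?_⟩
          have : j = 0 := by omega
          subst this; simp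
        · refine ⟨w (o + 1) - w o, ?_, ?_⟩
          · have := hs o (by omega)
            omega
          · intro j
            induction j using Nat.strong_induction_on with
            | _ j ihj =>
              intro hj
              rcases j with _ | _ | j
              · simp
              · simp
              · have a1 := ihj j (by omega) (by omega)
                have a2 := ihj (j + 1) (by omega) (by omega)
                have b1 := hs (o + j) (by omega)
                have b2 := hs (o + j + 1) (by omega)
                have b3 := hturn (j + 1) (by omega) (by omega)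
                have b4 : w (o + j) ≠ w (o + j + 2) := by
                  rcases ho with rfl | rfl
                  · have := b3.1
                    have q1 : j + 1 - 1 = 0 + j := by omega
                    have q2 : j + 1 + 1 = 0 + j + 2 := by omega
                    rwa [q1, q2] at this
                  · have := b3.2
                    have q1 : o + (j + 1) - 1 = o + j := by omega
                    have q2 : o + (j + 1) + 1 = o + j + 2 := by omega
                    rwa [q1, q2] at this
                have q3 : o + (j + 1) = o + j + 1 := by omega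
                have q4 : o + (j + 1 + 1) = o + j + 2 := by omega
                have q5 : o + j + 1 + 1 = o + j + 2 := by omega
                rw [q3] at a2
                rw [q5] at b2
                rw [q4]
                push_cast at a2 ⊢
                have d1 : w (o + j + 1) - w (o + j) = w (o + 1) - w o := by
                  rw [a1, a2]; ring
                have d2 : w (o + j + 2) - w (o + j + 1) = w (o + j + 1) - w (o + j) := by
                  omega
                linarith
      obtain ⟨ε, hε, hA⟩ := hstr 0 (Or.inl rfl)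
      obtain ⟨ε', hε', hB⟩ := hstr l (Or.inr rfl)
      simp only [zero_add] at hA
      have hmid := hs (l - 1) (by omega)
      have hl1 : l - 1 + 1 = l := by omega
      rw [hl1] at hmid
      have hAl := hA (l - 1) (by omega)
      have hcast : ((l - 1 : ℕ) : ℤ) = (l : ℤ) - 1 := by omega
      rw [hcast] at hAl
      have r0 := hr 0 (by omega)
      have rl := hr l (by omega)
      have rl1 := hr (l - 1) (by omega)
      have r2l := hr (l + (l - 1)) (by omega)
      have hBl := hB (l - 1) (by omega)
      rw [hcast] at hBl
      -- the pairs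
      have pair : ∀ j < l, f (w 0 + ε * j) = f (w l + ε' * j) := by
        intro j hj
        rw [← hA j hj, ← hB j hj]; exact hf j hj
      have bd : ∀ j < l, 0 ≤ w 0 + ε * j ∧ w 0 + ε * j < n ∧ 0 ≤ w l + ε' * j ∧
          w l + ε' * j < n := by
        intro j hj
        rw [← hA j hj, ← hB j hj]
        exact ⟨(hr j (by omega)).1, (hr j (by omega)).2, (hr (l + j) (by omega)).1,
          (hr (l + j) (by omega)).2⟩
      have hlpos : (1 : ℤ) ≤ l := by omega
      rcases hε with rfl | rfl <;> rcases hε' with rfl | rfl
      · -- both halves go up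
        rcases hmid with hm | hm
        · -- a straight walk
          obtain ⟨k, hk, hne⟩ := h3 (w 0) l r0.1 (by omega) (by omega)
          have := pair k hk
          exact absurd (by simp only [one_mul] at this; rw [this]; congr 1; omega) hne
        · have hwl : w l = w 0 + (l : ℤ) - 2 := by omega
          rcases Nat.lt_or_ge l 3 with hl3 | hl3
          · have hl12 : l = 1 ∨ l = 2 := by omega
            rcases hl12 with hl12 | hl12
            · have hp := pair 0 (by omega)
              have hb := bd 0 (by omega)
              exact absurd (heq _ _ hb.1 hb.2.1 hb.2.2.1 hb.2.2.2 hp (by omega)) (by omega)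
            · intro i hi
              rw [hA i hi, hB i hi]
              omega
          · obtain ⟨k, hk, hne⟩ := h3 (w 0) (l - 2) r0.1 (by omega) (by omega)
            have := pair k (by omega)
            exact absurd (by simp only [one_mul] at this; rw [this]; congr 1; omega) hne
      · -- up, then down
        rcases Nat.even_or_odd' l with ⟨r, hr2 | hr2⟩
        · rcases hmid with hm | hm
          · have hp := pair (r - 1) (by omega)
            have hb := bd (r - 1) (by omega)
            exact absurd (heq _ _ hb.1 hb.2.1 hb.2.2.1 hb.2.2.2 hp (by omega)) (by omega)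
          · have hp := pair r (by omega)
            have hb := bd r (by omega)
            exact absurd (heq _ _ hb.1 hb.2.1 hb.2.2.1 hb.2.2.2 hp (by omega)) (by omega)
        · have hp := pair r (by omega)
          have hb := bd r (by omega)
          exact absurd (heq _ _ hb.1 hb.2.1 hb.2.2.1 hb.2.2.2 hp (by omega)) (by omega)
      · -- down, then up
        rcases Nat.even_or_odd' l with ⟨r, hr2 | hr2⟩
        · rcases hmid with hm | hm
          · have hp := pair r (by omega)
            have hb := bd r (by omega)
            exact absurd (heq _ _ hb.1 hb.2.1 hb.2.2.1 hb.2.2.2 hp (by omega)) (by omega)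
          · have hp := pair (r - 1) (by omega)
            have hb := bd (r - 1) (by omega)
            exact absurd (heq _ _ hb.1 hb.2.1 hb.2.2.1 hb.2.2.2 hp (by omega)) (by omega)
        · have hp := pair r (by omega)
          have hb := bd r (by omega)
          exact absurd (heq _ _ hb.1 hb.2.1 hb.2.2.1 hb.2.2.2 hp (by omega)) (by omega)
      · -- both halves go down
        rcases hmid with hm | hm
        · have hwl : w l = w 0 - (l : ℤ) + 2 := by omega
          rcases Nat.lt_or_ge l 3 with hl3 | hl3
          · have hl12 : l = 1 ∨ l = 2 := by omega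
            rcases hl12 with hl12 | hl12
            · have hp := pair 0 (by omega)
              have hb := bd 0 (by omega)
              exact absurd (heq _ _ hb.1 hb.2.1 hb.2.2.1 hb.2.2.2 hp (by omega)) (by omega)
            · intro i hi
              rw [hA i hi, hB i hi]
              omega
          · obtain ⟨k, hk, hne⟩ := h3 (w 0 - 2 * ((l - 2 : ℕ) : ℤ) + 1) (l - 2) (by omega)
              (by omega) (by omega)
            have := pair (l - 2 - 1 - k) (by omega)
            have e1 : w 0 + -1 * ((l - 2 - 1 - k : ℕ) : ℤ) =
                w 0 - 2 * ((l - 2 : ℕ) : ℤ) + 1 + ((l - 2 : ℕ) : ℤ) + k := by omega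
            have e2 : w l + -1 * ((l - 2 - 1 - k : ℕ) : ℤ) =
                w 0 - 2 * ((l - 2 : ℕ) : ℤ) + 1 + k := by omega
            rw [e1, e2] at this
            exact absurd this.symm hne
        · obtain ⟨k, hk, hne⟩ := h3 (w 0 - 2 * (l : ℤ) + 1) l (by omega) (by omega) (by omega)
          have := pair (l - 1 - k) (by omega)
          have e1 : w 0 + -1 * ((l - 1 - k : ℕ) : ℤ) = w 0 - 2 * (l : ℤ) + 1 + l + k := by omega
          have e2 : w l + -1 * ((l - 1 - k : ℕ) : ℤ) = w 0 - 2 * (l : ℤ) + 1 + k := by omega
          rw [e1, e2] at this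
          exact absurd this.symm hne

/-! ### The colourings -/

open Pool.Agent.Helper131.Tern in
/-- a word on four letters: the ternary Thue-Morse word with a separator after every two
letters -/
def word (n : ℕ) : Fin 4 :=
  if n % 3 = 2 then 3 else (T (2 * (n / 3) + n % 3)).castSucc

open Pool.Agent.Helper131.Tern in
lemma T_ne (i : ℕ) : T i ≠ T (i + 1) := by
  obtain ⟨k, hk, hne⟩ := T_sf i 1 one_pos
  have : k = 0 := by omega
  subst this
  simpa using hne

open Pool.Agent.Helper131.Tern in
lemma word_ne1 (n : ℕ) : word n ≠ word (n + 1) := by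
  unfold word
  have hc : n % 3 = 0 ∨ n % 3 = 1 ∨ n % 3 = 2 := by omega
  rcases hc with h | h | h
  · have h1 : (n + 1) % 3 = 1 := by omega
    have h2 : (n + 1) / 3 = n / 3 := by omega
    rw [h, h1, h2]
    norm_num
    exact T_ne _
  · have h1 : (n + 1) % 3 = 2 := by omega
    rw [h, h1]
    norm_num
    exact (Fin.castSucc_lt_last _).ne
  · have h1 : (n + 1) % 3 = 0 := by omega
    rw [h, h1]
    norm_num
    exact (Fin.castSucc_lt_last _).ne'

open Pool.Agent.Helper131.Tern in
lemma word_ne2 (n : ℕ) : word n ≠ word (n + 2) := by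
  unfold word
  have hc : n % 3 = 0 ∨ n % 3 = 1 ∨ n % 3 = 2 := by omega
  rcases hc with h | h | h
  · have h1 : (n + 2) % 3 = 2 := by omega
    rw [h, h1]
    norm_num
    exact (Fin.castSucc_lt_last _).ne
  · have h1 : (n + 2) % 3 = 0 := by omega
    have h2 : (n + 2) / 3 = n / 3 + 1 := by omega
    rw [h, h1, h2]
    norm_num
    have := T_ne (2 * (n / 3) + 1)
    rwa [show 2 * (n / 3) + 1 + 1 = 2 * (n / 3 + 1) by ring] at this
  · have h1 : (n + 2) % 3 = 1 := by omega
    rw [h, h1]
    norm_num
    exact (Fin.castSucc_lt_last _).ne'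

open Pool.Agent.Helper131.Tern in
lemma word_sf (x p : ℕ) (hp : 0 < p) : ∃ k < p, word (x + k) ≠ word (x + p + k) := by
  by_contra hcon
  push Not at hcon
  rcases Nat.lt_or_ge p 3 with h3 | h3
  · have : p = 1 ∨ p = 2 := by omega
    rcases this with rfl | rfl
    · exact word_ne1 x (by simpa using hcon 0 (by omega))
    · exact word_ne2 x (by simpa using hcon 0 (by omega))
  · -- a separator in the window
    obtain ⟨k0, hk0, hk0'⟩ : ∃ k0 < 3, (x + k0) % 3 = 2 := by
      have hc : x % 3 = 0 ∨ x % 3 = 1 ∨ x % 3 = 2 := by omega
      rcases hc with h | h | h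
      · exact ⟨2, by omega, by omega⟩
      · exact ⟨1, by omega, by omega⟩
      · exact ⟨0, by omega, by omega⟩
    have hp3 : p % 3 = 0 := by
      have h := hcon k0 (by omega)
      have h1 : word (x + k0) = 3 := by unfold word; rw [if_pos hk0']
      rw [h1] at h
      by_contra hne
      have h2 : (x + p + k0) % 3 ≠ 2 := by omega
      have h4 : word (x + p + k0) ≠ 3 := by
        unfold word
        rw [if_neg h2]
        exact (Fin.castSucc_lt_last _).ne
      exact h4 h.symm
    obtain ⟨q, rfl⟩ : ∃ q, p = 3 * q := ⟨p / 3, by omega⟩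
    -- the number of letters before `x`
    set i0 : ℕ := if x % 3 = 2 then 2 * (x / 3) + 2 else 2 * (x / 3) + x % 3 with hi0
    obtain ⟨k, hk, hne⟩ := T_sf i0 (2 * q) (by omega)
    apply hne
    set j := i0 + k with hj
    have hpos : ∃ t, t < 3 * q ∧ x + t = 3 * (j / 2) + j % 2 := by
      have hc : x % 3 = 0 ∨ x % 3 = 1 ∨ x % 3 = 2 := by omega
      refine ⟨3 * (j / 2) + j % 2 - x, ?_, ?_⟩
      · rcases hc with h | h | h
        · rw [if_neg (by omega)] at hi0; omega
        · rw [if_neg (by omega)] at hi0; omega
        · rw [if_pos h] at hi0; omega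
      · rcases hc with h | h | h
        · rw [if_neg (by omega)] at hi0; omega
        · rw [if_neg (by omega)] at hi0; omega
        · rw [if_pos h] at hi0; omega
    obtain ⟨t, ht, hxt⟩ := hpos
    have h := hcon t ht
    have e2 : x + 3 * q + t = 3 * (j / 2 + q) + j % 2 := by omega
    rw [hxt, e2] at h
    unfold word at h
    have m1 : (3 * (j / 2) + j % 2) % 3 = j % 2 := by omega
    have m2 : (3 * (j / 2 + q) + j % 2) % 3 = j % 2 := by omega
    have m3 : (3 * (j / 2) + j % 2) / 3 = j / 2 := by omega
    have m4 : (3 * (j / 2 + q) + j % 2) / 3 = j / 2 + q := by omega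
    rw [m1, m2, m3, m4, if_neg (by omega), if_neg (by omega)] at h
    have h' := Fin.castSucc_injective _ h
    have n1 : 2 * (j / 2) + j % 2 = j := by omega
    have n2 : 2 * (j / 2 + q) + j % 2 = i0 + 2 * q + k := by omega
    rw [n1, n2] at h'
    exact h'

/-! ### Upper bounds -/

lemma upper (n q : ℕ) (f : ℕ → Fin q) (h1 : ∀ x, x + 1 < n → f x ≠ f (x + 1))
    (h2 : ∀ x, x + 2 < n → f x ≠ f (x + 2))
    (h3 : ∀ x p, 0 < p → x + 2 * p ≤ n → ∃ k < p, f (x + k) ≠ f (x + p + k)) :
    IsWalkNonrepetitive (SimpleGraph.pathGraph n) 1 q (fun v => {f v.val}) := by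
  refine ⟨fun v => Finset.card_singleton _, ?_⟩
  intro l w hl hadj hnb a ha hrep
  apply hnb
  have ha' : ∀ i < 2 * l, a i = f (w i).val := fun i hi => Finset.mem_singleton.mp (ha i hi)
  have key := boring_of_repetitive (fun z : ℤ => f z.toNat) n ?_ ?_ ?_ l
    (fun i => ((w i).val : ℤ)) hl ?_ ?_ ?_
  · intro i hi
    have := key i hi
    apply Fin.ext
    exact_mod_cast this
  · intro x hx hxn
    have e : (x + 1).toNat = x.toNat + 1 := by omega
    simp only [e]
    exact h1 _ (by omega)
  · intro x hx hxn
    have e : (x + 2).toNat = x.toNat + 2 := by omega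
    simp only [e]
    exact h2 _ (by omega)
  · intro x p hx hp hxn
    obtain ⟨k, hk, hne⟩ := h3 x.toNat p hp (by omega)
    refine ⟨k, hk, ?_⟩
    have e1 : (x + k).toNat = x.toNat + k := by omega
    have e2 : (x + p + k).toNat = x.toNat + p + k := by omega
    simp only [e1, e2]
    exact hne
  · intro i _
    have := (w i).isLt
    exact ⟨by positivity, by exact_mod_cast this⟩
  · intro i hi
    have := hadj i hi
    rw [SimpleGraph.pathGraph_adj] at this
    omega
  · intro i hi
    have h5 := hrep i hi
    rw [ha' i (by omega), ha' (l + i) (by omega)] at h5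
    simpa using h5

/-- the colouring `0, 1, 2, 0, 1` of the path with five vertices -/
def word5 (n : ℕ) : Fin 3 := ⟨n % 3, Nat.mod_lt _ (by norm_num)⟩

lemma upper5 : IsWalkNonrepetitive (SimpleGraph.pathGraph 5) 1 3 (fun v => {word5 v.val}) := by
  apply upper
  · intro x hx h
    have := congrArg Fin.val h
    simp only [word5] at this
    omega
  · intro x hx h
    have := congrArg Fin.val h
    simp only [word5] at this
    omega
  · intro x p hp hx
    refine ⟨0, hp, fun h => ?_⟩
    have := congrArg Fin.val h
    simp only [word5] at this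
    omega

lemma upper6 (n : ℕ) :
    IsWalkNonrepetitive (SimpleGraph.pathGraph n) 1 4 (fun v => {word v.val}) :=
  upper n 4 word (fun x _ => word_ne1 x) (fun x _ => word_ne2 x) (fun x p hp _ => word_sf x p hp)

/-! ### Lower bounds -/

section Lower

variable {n p q : ℕ} {c : Fin n → Finset (Fin q)}

lemma disj1 (h : IsWalkNonrepetitive (SimpleGraph.pathGraph n) p q c) (i : ℕ) (hi : i + 1 < n) :
    Disjoint (c ⟨i, by omega⟩) (c ⟨i + 1, hi⟩) := by
  rw [Finset.disjoint_left]
  intro x hx hx'
  refine h.2 1 (fun j => if j = 0 then ⟨i, by omega⟩ else ⟨i + 1, hi⟩) le_rfl ?_ ?_ (fun _ => x)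
    ?_ (fun _ _ => rfl)
  · intro j hj
    have : j = 0 := by omega
    subst this
    rw [SimpleGraph.pathGraph_adj]
    simp
  · intro hb
    have := hb 0 (by omega)
    simp at this
  · intro j hj
    have hj' : j = 0 ∨ j = 1 := by omega
    rcases hj' with rfl | rfl
    · simpa using hx
    · simpa using hx'

lemma disj2 (h : IsWalkNonrepetitive (SimpleGraph.pathGraph n) p q c) (hp : 1 ≤ p) (i : ℕ)
    (hi : i + 2 < n) : Disjoint (c ⟨i, by omega⟩) (c ⟨i + 2, hi⟩) := by
  rw [Finset.disjoint_left]
  intro x hx hx'
  obtain ⟨y, hy⟩ : (c ⟨i + 1, by omega⟩).Nonempty := by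
    rw [← Finset.card_pos, h.1]; omega
  refine h.2 2 (fun j => if j = 0 then ⟨i, by omega⟩ else if j = 2 then ⟨i + 2, hi⟩ else
    ⟨i + 1, by omega⟩) (by norm_num) ?_ ?_ (fun j => if j % 2 = 0 then x else y) ?_ ?_
  · intro j hj
    have hj' : j = 0 ∨ j = 1 ∨ j = 2 := by omega
    rw [SimpleGraph.pathGraph_adj]
    rcases hj' with rfl | rfl | rfl
    · simp
    · simp
    · simp
  · intro hb
    have := hb 0 (by omega)
    simp at this
  · intro j hj
    have hj' : j = 0 ∨ j = 1 ∨ j = 2 ∨ j = 3 := by omega
    rcases hj' with rfl | rfl | rfl | rfl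
    · simpa using hx
    · simpa using hy
    · simpa using hx'
    · simpa using hy
  · intro j hj
    have hj' : j = 0 ∨ j = 1 := by omega
    rcases hj' with rfl | rfl <;> simp

lemma lower3 (h : IsWalkNonrepetitive (SimpleGraph.pathGraph n) p q c) (hp : 1 ≤ p)
    (hn : 3 ≤ n) : 3 * p ≤ q := by
  have d01 := disj1 h 0 (by omega)
  have d12 := disj1 h 1 (by omega)
  have d02 := disj2 h hp 0 (by omega)
  have h1 : (c ⟨0, by omega⟩ ∪ c ⟨0 + 1, by omega⟩ ∪ c ⟨0 + 2, by omega⟩).card = 3 * p := by
    rw [Finset.card_union_of_disjoint, Finset.card_union_of_disjoint d01, h.1, h.1, h.1]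
    · ring
    · rw [Finset.disjoint_union_left]
      exact ⟨d02, d12⟩
  have h2 := Finset.card_le_univ (c ⟨0, by omega⟩ ∪ c ⟨0 + 1, by omega⟩ ∪ c ⟨0 + 2, by omega⟩)
  rw [h1, Fintype.card_fin] at h2
  exact h2

lemma meet (h : IsWalkNonrepetitive (SimpleGraph.pathGraph n) p q c) (hp : 1 ≤ p)
    (hq : q < 4 * p) (i : ℕ) (hi : i + 3 < n) :
    ∃ x, x ∈ c ⟨i, by omega⟩ ∧ x ∈ c ⟨i + 3, hi⟩ := by
  by_contra hcon
  push Not at hcon
  have d01 := disj1 h i (by omega)
  have d12 := disj1 h (i + 1) (by omega)
  have d23 := disj1 h (i + 2) (by omega)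
  have d02 := disj2 h hp i (by omega)
  have d13 := disj2 h hp (i + 1) (by omega)
  have d03 : Disjoint (c ⟨i, by omega⟩) (c ⟨i + 3, hi⟩) := Finset.disjoint_left.mpr hcon
  have h1 : (c ⟨i, by omega⟩ ∪ c ⟨i + 1, by omega⟩ ∪ c ⟨i + 2, by omega⟩ ∪
      c ⟨i + 3, hi⟩).card = 4 * p := by
    rw [Finset.card_union_of_disjoint, Finset.card_union_of_disjoint,
      Finset.card_union_of_disjoint d01, h.1, h.1, h.1, h.1]
    · ring
    · rw [Finset.disjoint_union_left]
      exact ⟨d02, d12⟩
    · rw [Finset.disjoint_union_left, Finset.disjoint_union_left]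
      exact ⟨⟨d03, d13⟩, d23⟩
  have h2 := Finset.card_le_univ (c ⟨i, by omega⟩ ∪ c ⟨i + 1, by omega⟩ ∪
    c ⟨i + 2, by omega⟩ ∪ c ⟨i + 3, hi⟩)
  rw [h1, Fintype.card_fin] at h2
  omega

lemma lower4 (h : IsWalkNonrepetitive (SimpleGraph.pathGraph n) p q c) (hp : 1 ≤ p)
    (hn : 6 ≤ n) : 4 * p ≤ q := by
  by_contra hq
  rw [not_le] at hq
  have hm : ∀ i : ℕ, ∃ x, ∀ hi : i < 3, x ∈ c ⟨i, by omega⟩ ∧ x ∈ c ⟨i + 3, by omega⟩ := by
    intro i
    by_cases hi : i < 3
    · obtain ⟨x, hx⟩ := meet h hp hq i (by omega)
      exact ⟨x, fun _ => hx⟩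
    · obtain ⟨x, hx⟩ := meet h hp hq 0 (by omega)
      exact ⟨x, fun hi' => absurd hi' hi⟩
  choose x hx using hm
  refine h.2 3 (fun j => if hj : j < n then ⟨j, hj⟩ else ⟨0, by omega⟩) (by norm_num) ?_ ?_
    (fun j => x (j % 3)) ?_ ?_
  · intro j hj
    rw [SimpleGraph.pathGraph_adj, dif_pos (by omega), dif_pos (by omega)]
    simp
  · intro hb
    have := hb 0 (by omega)
    rw [dif_pos (by omega), dif_pos (by omega)] at this
    simp at this
  · intro j hj
    rw [dif_pos (by omega)]
    rcases Nat.lt_or_ge j 3 with h3 | h3
    · have := (hx j h3).1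
      have e : j % 3 = j := by omega
      simp only [e]
      exact this
    · have := (hx (j - 3) (by omega)).2
      have e : j % 3 = j - 3 := by omega
      have e2 : j - 3 + 3 = j := by omega
      simp only [e]
      simp only [e2] at this
      exact this
  · intro j hj
    have e : (3 + j) % 3 = j % 3 := by omega
    simp only [e]

end Lower

/-- The fractional walk-nonrepetitive chromatic number of the path `P_n` is `3` for `n = 5` (four
edges) and `4` for every `n ≥ 6` (at least five edges). -/
theorem result : piFW (SimpleGraph.pathGraph 5) = 3 ∧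
    ∀ n : ℕ, 6 ≤ n → piFW (SimpleGraph.pathGraph n) = 4 := by
  constructor
  · apply IsLeast.csInf_eq
    constructor
    · exact ⟨1, 3, le_rfl, by norm_num, ⟨_, upper5⟩, by norm_num⟩
    · rintro x ⟨p, q, hp, hpq, ⟨c, hc⟩, rfl⟩
      have := lower3 hc hp (by norm_num)
      rw [le_div_iff₀ (by exact_mod_cast hp)]
      exact_mod_cast this
  · intro n hn
    apply IsLeast.csInf_eq
    constructor
    · exact ⟨1, 4, le_rfl, by norm_num, ⟨_, upper6 n⟩, by norm_num⟩
    · rintro x ⟨p, q, hp, hpq, ⟨c, hc⟩, rfl⟩
      have := lower4 hc hp hn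
      rw [le_div_iff₀ (by exact_mod_cast hp)]
      exact_mod_cast this

end Pool.Agent.Results.MP_c566a2_co.PathValue
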